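import Mathlib
import Pool.Agent.Q264.BaumSweet

/-!
# The zero positions of the Baum-Sweet sequence are not `k`-regular

Let `h` be the increasing enumeration of the zeros of the Baum-Sweet sequence `b` (`b_n = 1` if every maximal block of
zeros in the binary expansion of `n` has even length, `b_0 = 1`). Then `h` is not `k`-regular for any `k ≥ 2`.

The proof: if `h` is `k`-regular, then `u_n = (h_n - n) mod 2` has a finite `k`-kernel; hence there are at most `M` different
blocks of length `k^e` of `u`, with `M` independent of `e`, and so the starting points of the constant runs of length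
`≥ k^e` of `u` have at most `M + 1` residues modulo `k^e`. But the numbers with binary expansion `101 y`, where `y` has `i`
digits, are zeros, and the two preceding numbers are `1001^i` (not a zero) and `1001^{i-1}0` (a zero); so there is a
run of length `≥ 2^i` which starts at the index `z_i = 5 * 2^i - N_i`, where `N_i` is the number of the `m < 5 * 2^i` with
`b_m = 1`, up to a constant a sum of two sequences with `x_{i+2} = x_{i+1} + x_i`. It follows that the `z_i`,
`i ≥ i_0(e)`, have an unbounded number of residues modulo `k^e` as `e → ∞`.
-/

set_option autoImplicit false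

namespace Pool.Agent.Results.MP_4e5b66_nt.ZerosNotRegular

/-- `[i, j)` is a maximal block of consecutive zeros in the binary expansion of `n` (without leading zeros): the digits
at the positions `t`, `i ≤ t < j` (the position `t` belongs to `2 ^ t`) are `0`, the digit at the position `j` is `1`, and
either `i = 0` or the digit at the position `i - 1` is `1`. The length of the block is `j - i`. -/
def IsZeroBlock (n i j : ℕ) : Prop :=
  i < j ∧ (∀ t, i ≤ t → t < j → n.testBit t = false) ∧ n.testBit j = true ∧ (i = 0 ∨ n.testBit (i - 1) = true)

open scoped Classical in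
/-- the Baum-Sweet sequence -/
noncomputable def b (n : ℕ) : ℕ := if ∀ i j, IsZeroBlock n i j → Even (j - i) then 1 else 0

/-- `u` is `k`-regular: the `ℤ`-module generated by its `k`-kernel is finitely generated. -/
def IsRegular (k : ℕ) (u : ℕ → ℤ) : Prop :=
  (Submodule.span ℤ {f : ℕ → ℤ | ∃ e r : ℕ, r < k ^ e ∧ f = fun n => u (k ^ e * n + r)}).FG

/-- **The zero positions of the Baum-Sweet sequence are not regular.** -/
theorem result : (∃ h : ℕ → ℕ, StrictMono h ∧ Set.range h = {m | b m = 0}) ∧
    ∀ h : ℕ → ℕ, StrictMono h → Set.range h = {m | b m = 0} →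
      ∀ k : ℕ, 2 ≤ k → ¬ IsRegular k (fun n => (h n : ℤ)) := by
  classical
  have hz : {m | b m = 0} = {m | ¬ Q264.BaumSweet.BS 2 m} := by
    ext m
    simp only [b, Q264.BaumSweet.BS, Set.mem_setOf_eq, even_iff_two_dvd]
    constructor
    · intro h hcon
      have hcon' : ∀ i j, IsZeroBlock m i j → 2 ∣ j - i := hcon
      rw [if_pos hcon'] at h
      exact absurd h one_ne_zero
    · intro h
      have h' : ¬ ∀ i j, IsZeroBlock m i j → 2 ∣ j - i := h
      rw [if_neg h']
  have hinf := Q264.BaumSweet.zeros_infinite 2 le_rfl
  rw [← hz] at hinf
  refine ⟨⟨Nat.nth (· ∈ {m | b m = 0}), Nat.nth_strictMono hinf, Nat.range_nth_of_infinite hinf⟩, ?_⟩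
  intro h hmono hrange k hk
  exact Q264.BaumSweet.main 2 le_rfl h hmono (by rw [hrange, hz]) k hk

end Pool.Agent.Results.MP_4e5b66_nt.ZerosNotRegular
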